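import Pool.Agent.H848R3.RI.Final

set_option autoImplicit false
open Topology Filter Set MeasureTheory
open Pool.Agent.H848R3.RI

namespace Pool.Agent.W712

noncomputable section

variable {N : Network} {V : N.SType → Type} [∀ τ, NormedAddCommGroup (V τ)]
  [∀ τ, NormedSpace ℝ (V τ)]

/-- two nodes which are not synchronous on `x` are not synchronous on curves close to `x` on one
period -/
lemma exists_radius {f : Ph N V → Ph N V} {x : ℝ → Ph N V} {T : ℝ} (hx : PerOrb f x T)
    (a b : N.Node) : ∃ r > 0, ∀ x' : ℝ → Ph N V, (∀ t ∈ Icc 0 T, ‖x' t - x t‖ < r) →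
      Sync x' a b → Sync x a b := by
  by_cases h : Sync x a b
  · exact ⟨1, one_pos, fun _ _ _ => h⟩
  · unfold Sync at h
    push Not at h
    obtain ⟨t, ht⟩ := h
    obtain ⟨s, hs, hs2⟩ := hx.periodic.exists_mem_Ico₀ hx.pos t
    rw [hs2] at ht
    have hopen : IsOpen {z : Ph N V | st z a ≠ st z b} := (isClosed_st a b).isOpen_compl
    obtain ⟨r, hr, hball⟩ := Metric.isOpen_iff.1 hopen (x s) ht
    refine ⟨r, hr, fun x' hx' hsync => ?_⟩
    have h1 : x' s ∈ Metric.ball (x s) r := by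
      rw [Metric.mem_ball, dist_eq_norm]
      exact hx' s ⟨hs.1, hs.2.le⟩
    exact absurd (hsync s) (hball h1)

/-- rigid synchrony patterns are balanced -/
theorem rigid_sync [∀ τ, FiniteDimensional ℝ (V τ)] [∀ τ, Nontrivial (V τ)]
    {f : Ph N V → Ph N V} {x : ℝ → Ph N V} {T δ : ℝ} (hf : Admissible f) (hx : PerOrb f x T)
    (hnd : NDeg f x T) (hδ : 0 < δ)
    (hrig : ∀ (h : Ph N V → Ph N V) (x' : ℝ → Ph N V) (T' : ℝ), SmAdm h →
      (∀ z, ‖h z‖ < δ ∧ ‖fderiv ℝ h z‖ < δ) → PerOrb (fun z => f z + h z) x' T' →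
      |T' - T| < δ → (∀ t ∈ Icc 0 T, ‖x' t - x t‖ < δ) →
      ∀ c d, Sync x c d → Sync x' c d)
    (c d : N.Node) (hcd : Sync x c d) :
    ∃ β : InputIso N c d, ∀ e : N.In c, Sync x (N.tail e.1) (N.tail (β.toEquiv e).1) := by
  classical
  choose r hr0 hr using fun p : N.Node × N.Node => exists_radius hx p.1 p.2
  obtain ⟨δ', hδ', hδδ, hδr⟩ : ∃ δ' > 0, δ' ≤ δ ∧ ∀ p, δ' ≤ r p := by
    refine ⟨min δ (Finset.univ.inf' ⟨(c, d), Finset.mem_univ _⟩ r), ?_, min_le_left _ _, fun p =>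
      (min_le_right _ _).trans (Finset.inf'_le _ (Finset.mem_univ p))⟩
    exact lt_min hδ ((Finset.lt_inf'_iff _).2 fun p _ => hr0 p)
  have hC : Cls f x T δ' f x T :=
    { adm := hf
      dif := by
        have h0 : (fun z => f z - f z) = fun _ : Ph N V => (0 : Ph N V) := by
          funext z; exact sub_self _
        rw [h0]; exact SmAdm.zero
      near := ⟨0, hδ', fun z => by simp⟩
      orb := hx
      nd := hnd
      per := by simpa using hδ'
      close := fun t _ => by simpa using hδ' }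
  obtain ⟨f₁, x₁, T₁, t₀, hM⟩ := exists_max hC
  have hrel : ∀ a b, Sync x a b → Sync x₁ a b := by
    have hc := hM.cls
    have he : (fun z => f z + (f₁ z - f z)) = f₁ := by funext z; abel
    obtain ⟨δ'', h1, h2⟩ := hc.near
    refine hrig (fun z => f₁ z - f z) x₁ T₁ hc.dif
      (fun z => ⟨(h2 z).1.trans_lt (h1.trans_le hδδ), ?_⟩)
      (by rw [he]; exact hc.orb) (hc.per.trans_le hδδ) (fun t ht => (hc.close t ht).trans_le hδδ)
    have d1 := (hc.adm.smooth.differentiable one_ne_zero z).hasFDerivAt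
    have d2 := (hf.smooth.differentiable one_ne_zero z).hasFDerivAt
    have d3 : fderiv ℝ (fun z => f₁ z - f z) z = fderiv ℝ f₁ z - fderiv ℝ f z :=
      (d1.sub d2).fderiv
    rw [d3]
    exact (h2 z).2.trans_lt (h1.trans_le hδδ)
  have hback : ∀ a b, Sync x₁ a b → Sync x a b := fun a b h =>
    hr (a, b) x₁ (fun t ht => (hM.cls.close t ht).trans_le (hδr (a, b))) h
  have hall := fun a b => match_all hx.continuous hM hf.smooth a b
  have hinv : ∀ a b, st (x₁ t₀) a = st (x₁ t₀) b → Sync x₁ a b := fun a b hab t =>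
    invariant hM.cls.adm hM.cls.orb.sol hM.cls.orb.per hM.cls.orb.pos hall a b hab t
  obtain ⟨β, hβ⟩ := hall c d (hrel c d hcd t₀)
  exact ⟨β, fun e => hback _ _ (hinv _ _ (hβ e))⟩

end

end Pool.Agent.W712
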